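import Pool.Agent.Helper40.RL.LSD
import Pool.Agent.Helper95.RL.SUB
import Pool.Agent.Helper42.RD.VAL
import Pool.Agent.Helper40.RS.Gal
import Pool.Agent.Helper42.RS.RAM
import Pool.Agent.Helper77.RL.Goals2

/-!
# Packet RL-PRM (MP_fc6b1e_nt): the hypotheses of the lifting lemma at the primes
-/

namespace Pool.Agent.Helper51.RL

open NumberField Polynomial Module IsDedekindDomain
open Pool.Agent.Helper51.SigLeo Pool.Agent.Helper51.RP Pool.Agent.Helper77.RL
open Pool.Agent.Helper42.RD (IsDat wt)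
open Pool.Agent.Helper49.RSV (PI mem_PI)

section tower

variable {K M L M' : Type} [Field K] [NumberField K] [Field M] [NumberField M] [Field L]
  [NumberField L] [Field M'] [NumberField M'] [Algebra K M] [Algebra K L] [Algebra K M']
  [Algebra M M'] [Algebra L M'] [IsScalarTower K M M'] [IsScalarTower K L M']

/-- The two ways down agree. -/
theorem above_sq {W : HeightOneSpectrum (𝓞 M')} {v : HeightOneSpectrum (𝓞 M)}
    {V : HeightOneSpectrum (𝓞 L)} {u : HeightOneSpectrum (𝓞 K)} (h1 : Above W v)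
    (h2 : Above W V) (h3 : Above V u) : Above v u := by
  unfold Above at *
  rw [← h1, ← h3, ← h2]
  ext x
  rw [Ideal.mem_comap, Ideal.mem_comap, Ideal.mem_comap, Ideal.mem_comap]
  have e : algebraMap (𝓞 M) (𝓞 M') (algebraMap (𝓞 K) (𝓞 M) x) =
      algebraMap (𝓞 L) (𝓞 M') (algebraMap (𝓞 K) (𝓞 L) x) := by
    apply RingOfIntegers.ext
    change algebraMap M M' (algebraMap K M (x : K)) = algebraMap L M' (algebraMap K L (x : K))
    rw [← IsScalarTower.algebraMap_apply K M M', ← IsScalarTower.algebraMap_apply K L M']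
  rw [e]

end tower

theorem l_prm (h1 : L_EF1) (h2 : L_EUN) : L_PRM := by
  intro p hp k _ _ _ hj n K M L M' _ _ _ _ _ _ _ _ _ _ _ _ _ _ _ hS T R al hD hC R' al' hL
  have hG : IsGalois K M := hS.galM
  have hc : CharZero k := charZero_of_injective_algebraMap (algebraMap ℚ_[p] k).injective
  have hbel : ∀ {w : HeightOneSpectrum (𝓞 M)} {u : HeightOneSpectrum (𝓞 K)}, Above w u →
      Pool.Agent.Helper40.RS.bel K w = u := by
    intro w u h
    apply HeightOneSpectrum.ext
    exact h
  refine ⟨hL.iff, ?_, ?_, ?_, ?_⟩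
  · intro W v hW hv
    rw [hL.eq W v hW hv, ← IsScalarTower.algebraMap_apply, ← IsScalarTower.algebraMap_apply]
  · intro v hv h
    have h3 := hD.unif v hv
    rw [h] at h3
    unfold ordv at h3
    rw [map_zero, WithZero.log_zero] at h3
    norm_num at h3
  · intro v hv
    obtain ⟨W, hW⟩ := Pool.Agent.Helper42.RS.exists_above (M := M) (H := M') v
    have hab : Above W v := hW.over.symm
    obtain ⟨V, hV⟩ := Pool.Agent.Helper95.RL.exists_below (M := L) W
    obtain ⟨u, hu⟩ := Pool.Agent.Helper95.RL.exists_below (M := K) V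
    exact ⟨W, hab, h1 p n K M L M' hS W v V hab hV
      (hC.split v hv u (above_sq hab hV hu) V hu)⟩
  · intro v hv hT hf
    obtain ⟨W, hW⟩ := Pool.Agent.Helper42.RS.exists_above (M := M) (H := M') v
    have hab : Above W v := hW.over.symm
    obtain ⟨V, hV⟩ := Pool.Agent.Helper95.RL.exists_below (M := L) W
    obtain ⟨u, hu⟩ := Pool.Agent.Helper95.RL.exists_below (M := K) V
    have hvu := above_sq hab hV hu
    refine ⟨W, hab, h2 p n K M L M' hS W v V u hab hV hvu hu hf ?_⟩
    refine hC.unr u ?_ ?_ ⟨v, hvu, hf⟩ V hu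
    · rintro ⟨σ, hσ, hσu⟩
      obtain ⟨τ, hτ⟩ := Pool.Agent.Helper40.RL.ext_emb (M' := M) hj σ
      have hτ' : ∀ x : K, τ (algebraMap K M x) = σ x := fun x => by
        rw [← hτ]
        rfl
      have hwu : Above (wt p τ) u := by
        unfold Above
        ext x
        rw [Ideal.mem_comap, hσu]
        change algebraMap (𝓞 K) (𝓞 M) x ∈ PI τ ↔ _
        rw [mem_PI]
        have e : ((algebraMap (𝓞 K) (𝓞 M) x : 𝓞 M) : M) = algebraMap K M (x : K) := rfl
        rw [e, hτ']
      obtain ⟨g, hg⟩ := Pool.Agent.Helper40.RS.conj_of_bel (K := K) v (wt p τ)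
        ((hbel hvu).trans (hbel hwu).symm)
      apply hT
      refine ⟨τ.comp ((g⁻¹ : M ≃ₐ[K] M) : M →+* M), ?_, ?_⟩
      · have e : (τ.comp ((g⁻¹ : M ≃ₐ[K] M) : M →+* M)).comp (algebraMap K M) = σ := by
          ext x
          change τ ((g⁻¹ : M ≃ₐ[K] M) (algebraMap K M x)) = σ x
          rw [AlgEquiv.commutes, hτ']
        change (τ.comp ((g⁻¹ : M ≃ₐ[K] M) : M →+* M)).comp (algebraMap K M) ∈ T
        rw [e]
        exact hσ
      · intro b
        have e1 : b ∈ v.asIdeal ↔ v.valuation M (b : M) < 1 :=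
          (v.valuation_lt_one_iff_mem (K := M) b).symm
        have e2 : (g⁻¹ • b : 𝓞 M) ∈ (wt p τ).asIdeal ↔
            (wt p τ).valuation M ((g⁻¹ • b : 𝓞 M) : M) < 1 :=
          ((wt p τ).valuation_lt_one_iff_mem (K := M) _).symm
        have e3 : (wt p τ).valuation M ((g⁻¹ • b : 𝓞 M) : M) = v.valuation M (b : M) := by
          rw [← hg]
          congr 1
          change g ((g⁻¹ : M ≃ₐ[K] M) (b : M)) = b
          exact AlgEquiv.apply_symm_apply g (b : M)
        rw [e1, ← e3, ← e2]
        exact mem_PI τ _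
    · intro w hw hwu
      exact hv (hD.stable w hw v
        (Pool.Agent.Helper40.RS.conj_of_bel (K := K) v w ((hbel hvu).trans (hbel hwu).symm)))

end Pool.Agent.Helper51.RL
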