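import Pool.Agent.Helper39.RP.SigB
import Pool.Agent.Helper77.RL.Goals

/-!
# Packet RL-EXP (MP_fc6b1e_nt): a uniform exponent
-/

namespace Pool.Agent.Helper51.RL

open NumberField Polynomial Module Pool.Agent.Helper51.SigLeo
open Pool.Agent.Helper39.RP

/-- The `p`-th power of an element near one is nearer. -/
theorem near_p {p : ℕ} [Fact p.Prime] {k : Type} [NormedField k] [NormedAlgebra ℚ_[p] k]
    [IsUltrametricDist k] {u : k} (hu : ‖u - 1‖ ≤ (p : ℝ)⁻¹) : ‖u ^ p - 1‖ ≤ (1 / p : ℝ) ^ 2 := by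
  have hp := two_le_p p
  have hpi : (0 : ℝ) < (p : ℝ)⁻¹ := by positivity
  have hpi1 : (p : ℝ)⁻¹ ≤ 1 := inv_le_one_of_one_le₀ (by linarith)
  have hpn : ‖((p : ℕ) : k)‖ = (p : ℝ)⁻¹ := by
    rw [← map_natCast (algebraMap ℚ_[p] k), norm_algebraMap', Padic.norm_p]
  have h1 : ‖∑ i ∈ Finset.range p, u ^ i‖ ≤ (p : ℝ)⁻¹ := by
    have e : ∑ i ∈ Finset.range p, u ^ i = (∑ i ∈ Finset.range p, (u ^ i - 1)) + ((p : ℕ) : k) := by
      rw [Finset.sum_sub_distrib, Finset.sum_const, Finset.card_range, nsmul_eq_mul, mul_one]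
      ring
    rw [e]
    refine (IsUltrametricDist.norm_add_le_max _ _).trans (max_le ?_ hpn.le)
    exact IsUltrametricDist.norm_sum_le_of_forall_le_of_nonneg hpi.le
      fun i _ => near_pow hpi1 hu i
  rw [← geom_sum_mul, norm_mul, one_div, sq]
  exact mul_le_mul h1 hu (norm_nonneg _) hpi.le

theorem l_exp : Pool.Agent.Helper77.RL.L_EXP := by
  intro p hp k _ _ _ M _ _ T
  have hc := charZero_k p (k := k)
  have hfin : Finite (M →+* k) := Finite.of_equiv (M →ₐ[ℚ] k) (RingHom.equivRatAlgHom (R := M) (S := k)).symm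
  have : Fintype T := Fintype.ofFinite _
  obtain ⟨q, hq, h⟩ := exists_q T p
  obtain ⟨b, q', hq', e⟩ := Nat.exists_eq_pow_mul_and_not_dvd hq.ne' p hp.out.ne_one
  refine ⟨q', b + 1, Nat.pos_of_ne_zero ?_, ?_, by omega, ?_⟩
  · rintro rfl
    exact hq' (dvd_zero p)
  · exact ((Nat.Prime.coprime_iff_not_dvd hp.out).2 hq').symm
  · intro z hz τ hτ
    have h1 := h z hz τ hτ
    have e2 : q' * p ^ (b + 1) = q * p := by
      rw [e, pow_succ]
      ring
    rw [e2, pow_mul]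
    apply near_p
    rw [Units.val_pow_eq_pow_val, map_pow] at h1
    exact h1

end Pool.Agent.Helper51.RL
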